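import Pool.Agent.MP6f0508.Global

/-!
# A dimension-free upper bound for the normal path constants `w_n`

The definitions are in `Pool.Agent.MP6f0508.Defs`, the proof is in the other files of that folder.
-/

namespace Pool.Agent.Results.MP_6f0508_an.UniformNormalPathBound

open Pool.Agent.MP6f0508
open scoped Matrix.Norms.L2Operator ENNReal

/-- For every `n` the constant `w_n` is at most `1150`; and any two normal `n × n` matrices `A`,
`B` are joined by a normal path of length at most `1150 * ‖A - B‖`. -/
theorem result (n : ℕ) :
    w n ≤ 1150 ∧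
    ∀ A B : Matrix (Fin n) (Fin n) ℂ, IsStarNormal A → IsStarNormal B →
      ∃ γ : ℝ → Matrix (Fin n) (Fin n) ℂ,
        IsNormalPath A B γ ∧ pathLength γ ≤ ENNReal.ofReal (1150 * ‖A - B‖) :=
  ⟨w_le n, fun _ _ hA hB => exists_normalPath hA hB⟩

end Pool.Agent.Results.MP_6f0508_an.UniformNormalPathBound
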